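import Mathlib
import Pool.Agent.X199.FTVS3

/-!
# If the second level of a free topological vector space is countably tight, so are all levels
-/

set_option autoImplicit false

open Set Topology TopologicalSpace

universe u

namespace Pool.Agent.Results.MP_723ccc_gt.LevelTwoTight

open Pool.Agent.X199.FT

/-- Let `X` be metrizable and let `(V, i)` be the free topological vector space over `X`. If
`sp_2(X)` is countably tight then `sp_4(X)` is countably tight. -/
theorem result (X : Type u) [TopologicalSpace X] [MetrizableSpace X] (V : Type u)
    [AddCommGroup V] [Module ℝ V] [TopologicalSpace V] (i : X → V) (hV : IsFreeTVS X V i)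
    (h : CountablyTight (sp i 2)) : CountablyTight (sp i 4) := by
  by_cases hX : SeparableSpace X
  · let _ : MetricSpace X := metrizableSpaceMetric X
    have h2 : SecondCountableTopology X := UniformSpace.secondCountable_of_separable X
    exact hV.countablyTight (sp i 4)
  · exfalso
    let _ : MetricSpace X := metrizableSpaceMetric X
    obtain ⟨M, hM2, h0, hc, -⟩ := hV.exists_bad hX
    have hnX : Nonempty X := by
      by_contra hcon
      rw [not_nonempty_iff] at hcon
      exact hX inferInstance
    have h1 : (0 : V) ∈ sp i 2 := by
      rw [sp_eq]
      exact zero_mem_Cs (by positivity) univ_nonempty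
    obtain ⟨C, hC, hCc, hCcl⟩ := h (Subtype.val ⁻¹' M) ⟨0, h1⟩ (by
      rw [closure_subtype, Subtype.image_preimage_coe, inter_eq_self_of_subset_right hM2]
      exact h0)
    rw [closure_subtype] at hCcl
    refine hc _ ?_ (hCc.image Subtype.val) hCcl
    rintro _ ⟨v, hv, rfl⟩
    exact hC hv

end Pool.Agent.Results.MP_723ccc_gt.LevelTwoTight
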